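import Pool.Agent.H56.HB.Targets

/-!
# Theorem (H0), MP_c59857_nt, part (c), row XNR: one prime with the property (N)
-/

set_option autoImplicit false

namespace Pool.Agent.H92.HB

open Finset Pool.Agent.H93 Pool.Agent.H18.MR Pool.Agent.H93.DE Pool.Agent.H6.N4D Pool.Agent.H93.ES
open Pool.Agent.H22.GS Pool.Agent.H56.HB

theorem conj_ee (x : ℝ) : starRingEnd ℂ (ee x) = ee (-x) := by
  unfold ee
  rw [← Complex.exp_conj, map_mul, Complex.conj_ofReal, Complex.conj_I]
  congr 1
  push_cast
  ring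

theorem ms_nonneg (w : ℕ) (F : ℕ → ℂ) : 0 ≤ ms w F := by
  unfold ms
  positivity

theorem half_sum_le (D : ℕ) : ∑ d ∈ range D, (1 / 2 : ℝ) ^ (d + 1) ≤ 1 := by
  have h : ∑ d ∈ range D, (1 / 2 : ℝ) ^ (d + 1) = 1 - (1 / 2) ^ D := by
    induction D with
    | zero => simp
    | succ n ih =>
      rw [sum_range_succ, ih]
      ring
  rw [h]
  have : (0 : ℝ) ≤ (1 / 2) ^ D := by positivity
  linarith

/-- the mean of `f c` for a sum of digits `f` -/
theorem wm_digits {w D : ℕ} {κ : ℕ → ℝ} {y : ℕ → ℕ → ℝ} {f : ℕ → ℝ}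
    (hf : ∀ t, f t = ∑ d ∈ range D, κ d * y d t) (c : ℕ → ℂ) :
    wm f w c = ∑ d ∈ range D, (κ d : ℂ) * wm (y d) w c := by
  unfold wm
  simp only [hf, mul_div_assoc']
  rw [← sum_div]
  congr 1
  simp only [mul_sum]
  rw [sum_comm]
  refine sum_congr rfl fun t _ => ?_
  push_cast
  rw [sum_mul]
  exact sum_congr rfl fun d _ => by ring

theorem norm_wm_digits {w D : ℕ} {κ : ℕ → ℝ} {y : ℕ → ℕ → ℝ} {f : ℕ → ℝ}
    (hκ : ∀ d, 0 ≤ κ d) (hf : ∀ t, f t = ∑ d ∈ range D, κ d * y d t) (c : ℕ → ℂ) :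
    ‖wm f w c‖ ≤ ∑ d ∈ range D, κ d * ‖wm (y d) w c‖ := by
  rw [wm_digits hf]
  refine (norm_sum_le _ _).trans (sum_le_sum fun d _ => ?_)
  rw [norm_mul, Complex.norm_real, Real.norm_eq_abs, abs_of_nonneg (hκ d)]

theorem pf_XNR : T_XNR := by
  intro P V δ hV hδ
  refine ⟨V ^ 2 * (P + 1) / (4 * δ), by positivity, ?_⟩
  intro w q r₀ D κ y f γ F hκ hf hNN
  obtain ⟨G, hG1, hG2⟩ := hNN
  set C : ℝ := V ^ 2 * (P + 1) / (4 * δ) with hC
  have hC0 : 0 ≤ C := by positivity
  set rt : ℝ := √(ms w F) with hrt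
  have hM := ms_nonneg w F
  have hrt0 : 0 ≤ rt := Real.sqrt_nonneg _
  have hrt2 : rt ^ 2 = ms w F := Real.sq_sqrt hM
  rcases hrt0.eq_or_lt with h0 | hpos
  · -- `F = 0` on the window
    have hF : ∀ t < 2 ^ w, F t = 0 := by
      intro t ht
      rw [hG1 t ht]
      refine sum_eq_zero fun a ha => ?_
      have h1 := (hG2 a (mem_range.1 ha)).1 t ht
      rw [← h0, mul_zero] at h1
      rw [norm_le_zero_iff.1 h1, zero_mul]
    refine ⟨fun _ _ => 0, fun a => ⟨fun t _ => by simp, by simp⟩, ?_⟩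
    have h1 : cx f w q r₀ F = 0 := by
      unfold cx wm
      rw [sum_eq_zero, zero_div]
      intro t ht
      simp only [hF t (mem_range.1 ht), map_zero, mul_zero]
    rw [h1, norm_zero]
    refine add_nonneg (mul_nonneg hδ.le hM) (mul_nonneg hC0 (sum_nonneg fun a _ =>
      sum_nonneg fun d _ => ?_))
    positivity
  · have hVrt : 0 < V * rt := by positivity
    set g : ℕ → ℕ → ℂ := fun a t => if a < P then starRingEnd ℂ (G a t) / ((V * rt : ℝ) : ℂ)
      else 0 with hg
    have hgin : ∀ a < P, ∀ t, g a t = starRingEnd ℂ (G a t) / ((V * rt : ℝ) : ℂ) := by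
      intro a ha t
      simp only [hg, if_pos ha]
    refine ⟨g, fun a => ?_, ?_⟩
    · by_cases ha : a < P
      · obtain ⟨h1, h2⟩ := hG2 a ha
        constructor
        · intro t ht
          rw [hgin a ha, norm_div, RCLike.norm_conj, Complex.norm_real, Real.norm_eq_abs,
            abs_of_pos hVrt, div_le_one hVrt]
          exact h1 t ht
        · have e1 : ∀ t, ‖g a (t + 1) - g a t‖ = ‖G a (t + 1) - G a t‖ / (V * rt) := by
            intro t
            rw [hgin a ha, hgin a ha, ← sub_div, ← map_sub, norm_div, RCLike.norm_conj,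
              Complex.norm_real, Real.norm_eq_abs, abs_of_pos hVrt]
          rw [sum_congr rfl fun t _ => e1 t, ← sum_div, div_le_one hVrt]
          exact h2
      · have e1 : ∀ t, g a t = 0 := fun t => by simp only [hg, if_neg ha]
        exact ⟨fun t _ => by rw [e1]; simp, by simp [e1]⟩
    · have hcx : cx f w q r₀ F = ((V * rt : ℝ) : ℂ) *
          ∑ a ∈ range P, wm f w (fun t => kA q r₀ (γ a) t * g a t) := by
        unfold cx wm
        rw [mul_sum]
        simp only [mul_div_assoc']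
        rw [← sum_div]
        congr 1
        simp only [mul_sum]
        rw [sum_comm]
        refine sum_congr rfl fun t ht => ?_
        rw [hG1 t (mem_range.1 ht), map_sum, mul_sum, mul_sum]
        refine sum_congr rfl fun a ha => ?_
        rw [hgin a (mem_range.1 ha), map_mul, conj_ee]
        unfold kA
        have h1 : ((V * rt : ℝ) : ℂ) ≠ 0 := by
          exact_mod_cast hVrt.ne'
        field_simp
      rw [hcx, norm_mul, Complex.norm_real, Real.norm_eq_abs, abs_of_pos hVrt]
      set z : ℕ → ℕ → ℝ := fun a d => ‖wm (y d) w (fun t => kA q r₀ (γ a) t * g a t)‖ with hz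
      have h1 : ‖∑ a ∈ range P, wm f w (fun t => kA q r₀ (γ a) t * g a t)‖ ≤
          ∑ a ∈ range P, ∑ d ∈ range D, κ d * z a d :=
        (norm_sum_le _ _).trans (sum_le_sum fun a _ => norm_wm_digits (fun d => (hκ d).1) hf _)
      have hP1 : (0 : ℝ) < (P : ℝ) + 1 := by positivity
      have h2 : ∀ a d, (V * rt) * (κ d * z a d) ≤
          (1 / 2) ^ (d + 1) * (δ / (P + 1) * rt ^ 2) + C * ((1 / 2) ^ (d + 1) * z a d ^ 2) := by
        intro a d
        have h3 : (V * rt) * z a d ≤ δ / (P + 1) * rt ^ 2 + C * z a d ^ 2 := by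
          have h4 : δ / (P + 1) * rt ^ 2 + C * z a d ^ 2 - (V * rt) * z a d =
              (δ / (P + 1)) * (rt - V * (P + 1) / (2 * δ) * z a d) ^ 2 := by
            rw [hC]
            field_simp
            ring
          have h5 : 0 ≤ (δ / (P + 1)) * (rt - V * (P + 1) / (2 * δ) * z a d) ^ 2 := by
            positivity
          linarith
        have h6 : 0 ≤ δ / (P + 1) * rt ^ 2 + C * z a d ^ 2 := by positivity
        calc (V * rt) * (κ d * z a d) = κ d * ((V * rt) * z a d) := by ring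
          _ ≤ κ d * (δ / (P + 1) * rt ^ 2 + C * z a d ^ 2) :=
            mul_le_mul_of_nonneg_left h3 (hκ d).1
          _ ≤ (1 / 2) ^ (d + 1) * (δ / (P + 1) * rt ^ 2 + C * z a d ^ 2) :=
            mul_le_mul_of_nonneg_right (hκ d).2 h6
          _ = _ := by ring
      calc (V * rt) * ‖∑ a ∈ range P, wm f w (fun t => kA q r₀ (γ a) t * g a t)‖
          ≤ (V * rt) * ∑ a ∈ range P, ∑ d ∈ range D, κ d * z a d := by gcongr
        _ = ∑ a ∈ range P, ∑ d ∈ range D, (V * rt) * (κ d * z a d) := by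
            rw [mul_sum]
            exact sum_congr rfl fun a _ => by rw [mul_sum]
        _ ≤ ∑ a ∈ range P, ∑ d ∈ range D, ((1 / 2) ^ (d + 1) * (δ / (P + 1) * rt ^ 2) +
            C * ((1 / 2) ^ (d + 1) * z a d ^ 2)) :=
            sum_le_sum fun a _ => sum_le_sum fun d _ => h2 a d
        _ = ∑ a ∈ range P, ∑ d ∈ range D, (1 / 2) ^ (d + 1) * (δ / (P + 1) * rt ^ 2) +
            C * ∑ a ∈ range P, ∑ d ∈ range D, (1 / 2) ^ (d + 1) * z a d ^ 2 := by
            simp only [sum_add_distrib, mul_sum]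
        _ ≤ δ * ms w F + C * ∑ a ∈ range P, ∑ d ∈ range D, (1 / 2) ^ (d + 1) * z a d ^ 2 := by
            gcongr
            rw [← hrt2]
            have h7 : ∑ a ∈ range P, ∑ d ∈ range D, (1 / 2 : ℝ) ^ (d + 1) *
                (δ / (P + 1) * rt ^ 2) ≤ ∑ a ∈ range P, δ / (P + 1) * rt ^ 2 := by
              refine sum_le_sum fun a _ => ?_
              rw [← sum_mul]
              exact mul_le_of_le_one_left (by positivity) (half_sum_le D)
            refine h7.trans ?_
            rw [sum_const, card_range, nsmul_eq_mul]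
            have h8 : (P : ℝ) * (δ / (P + 1) * rt ^ 2) = (P / (P + 1)) * (δ * rt ^ 2) := by
              field_simp
            rw [h8]
            refine mul_le_of_le_one_left (by positivity) ?_
            rw [div_le_one hP1]
            linarith

end Pool.Agent.H92.HB
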